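import Pool.Agent.H26.RSM.DEG1

/-!
# Module DEG of project RSM: no finite source group in degree at most two
-/

set_option autoImplicit false

open MvPolynomial

namespace Pool.Agent.H26.RSM

open Pool.Agent.H24.RSM

/-- The indefinite form. -/
noncomputable def Jf {n : ℕ} (x y : E n × ℂ) : ℂ :=
  inner ℂ x.1 y.1 - (starRingEnd ℂ) x.2 * y.2

theorem Jf_self {n : ℕ} (x : E n × ℂ) : Jf x x = ((‖x.1‖ ^ 2 - ‖x.2‖ ^ 2 : ℝ) : ℂ) := by
  unfold Jf
  rw [inner_self_eq_norm_sq_to_K, Complex.conj_mul']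
  push_cast
  rfl

theorem Jf_add_left {n : ℕ} (x y z : E n × ℂ) : Jf (x + y) z = Jf x z + Jf y z := by
  simp only [Jf, Prod.fst_add, Prod.snd_add, inner_add_left, map_add]
  ring

theorem Jf_add_right {n : ℕ} (x y z : E n × ℂ) : Jf x (y + z) = Jf x y + Jf x z := by
  simp only [Jf, Prod.fst_add, Prod.snd_add, inner_add_right]
  ring

theorem Jf_smul_left {n : ℕ} (a : ℂ) (x y : E n × ℂ) :
    Jf (a • x) y = (starRingEnd ℂ) a * Jf x y := by
  simp only [Jf, Prod.smul_fst, Prod.smul_snd, inner_smul_left, smul_eq_mul, map_mul]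
  ring

theorem Jf_smul_right {n : ℕ} (a : ℂ) (x y : E n × ℂ) : Jf x (a • y) = a * Jf x y := by
  simp only [Jf, Prod.smul_fst, Prod.smul_snd, inner_smul_right, smul_eq_mul]
  ring

/-- The symmetry lemma for forms that are products. -/
theorem sym2 (hW : WitStmt) (hF : FracStmt) {n N : ℕ} (f : RatSphereMap n N)
    (G : Subgroup (Matrix.unitaryGroup (Fin n) ℂ)) (hG : HasSourceGroup f G)
    (hd : f.degree ≤ 2) (S : (E n × ℂ) →ₗ[ℂ] (E n × ℂ))
    (hS : ∀ z : E n, HH f z = (‖z‖ ^ 2 - 1) * (Jf (z, 1) (S (z, 1))).re)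
    (M : (E n × ℂ) →ₗ[ℂ] (E n × ℂ)) (hM : ∀ x, Jf (M x) (M x) = Jf x x)
    (hM2 : ∀ x, Jf (M x) (S (M x)) = Jf x (S x)) :
    ∃ U ∈ G, ∀ z ∈ Bn n, frac M z = act U z := by
  have hJ : IsJ M := by
    intro x
    have h1 := hM x
    rw [Jf_self, Jf_self] at h1
    exact_mod_cast h1
  refine sym hW hF f G hG hd M hJ fun z hz => ?_
  rw [hS, hS]
  set y := M (z, 1) with hy
  have h1 : ((frac M z, 1) : E n × ℂ) = (y.2)⁻¹ • y := by
    ext1
    · rfl
    · simp only [Prod.smul_snd, smul_eq_mul]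
      rw [inv_mul_cancel₀ hz]
  have h2 : (‖frac M z‖ ^ 2 - 1 : ℝ) = (Jf ((frac M z, 1) : E n × ℂ) (frac M z, 1)).re := by
    rw [Jf_self, Complex.ofReal_re]
    simp
  have h3 : (‖z‖ ^ 2 - 1 : ℝ) = (Jf ((z, 1) : E n × ℂ) (z, 1)).re := by
    rw [Jf_self, Complex.ofReal_re]
    simp
  have h4 : ∀ v w : E n × ℂ, (Jf ((y.2)⁻¹ • v) ((y.2)⁻¹ • w)).re =
      (‖y.2‖ ^ 2)⁻¹ * (Jf v w).re := by
    intro v w
    rw [Jf_smul_left, Jf_smul_right, ← mul_assoc, Complex.conj_mul']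
    have : (((‖(y.2)⁻¹‖ : ℝ) : ℂ) ^ 2) = (((‖y.2‖ ^ 2)⁻¹ : ℝ) : ℂ) := by
      rw [norm_inv]
      push_cast
      rw [inv_pow]
    rw [this, Complex.re_ofReal_mul]
  rw [h2, h3, h1, map_smul, h4, h4, hy, hM2, hM]
  have h5 : ‖y.2‖ ≠ 0 := norm_ne_zero_iff.2 hz
  rw [← hy]
  field_simp

/-- The operator with data `B, b, c`. -/
noncomputable def opS {n : ℕ} (B : E n →ₗ[ℂ] E n) (b : E n) (c : ℝ) :
    (E n × ℂ) →ₗ[ℂ] (E n × ℂ) :=
  LinearMap.prod
    (B.comp (LinearMap.fst ℂ (E n) ℂ) +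
      (LinearMap.toSpanSingleton ℂ (E n) b).comp (LinearMap.snd ℂ (E n) ℂ))
    (-((((innerSL ℂ b : E n →L[ℂ] ℂ) : E n →ₗ[ℂ] ℂ)).comp (LinearMap.fst ℂ (E n) ℂ) +
      (c : ℂ) • LinearMap.snd ℂ (E n) ℂ))

theorem opS_apply {n : ℕ} (B : E n →ₗ[ℂ] E n) (b : E n) (c : ℝ) (x : E n × ℂ) :
    opS B b c x = (B x.1 + x.2 • b, -(inner ℂ b x.1 + c * x.2)) := by
  simp [opS]

theorem opS_symm {n : ℕ} (B : E n →ₗ[ℂ] E n) (b : E n) (c : ℝ) (hB : B.IsSymmetric)
    (x y : E n × ℂ) : Jf (opS B b c x) y = Jf x (opS B b c y) := by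
  rw [opS_apply, opS_apply]
  simp only [Jf, inner_add_left, inner_add_right, inner_smul_left, inner_smul_right, map_neg,
    map_add, map_mul, Complex.conj_ofReal, inner_conj_symm]
  rw [hB x.1 y.1]
  ring

/-- Affine polynomials. -/
theorem lin1 {n : ℕ} (p : MvPolynomial (Fin n) ℂ) (hp : p.totalDegree ≤ 1) :
    ∃ (a : E n) (α : ℂ), ∀ z : E n, ev z p = inner ℂ a z + α := by
  classical
  have h1 : ∀ d : Fin n →₀ ℕ, (d.sum fun _ e => e) ≤ 1 →
      ∃ (a : E n) (α : ℂ), ∀ z : E n, ∏ i, (z i) ^ (d i) = inner ℂ a z + α := by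
    intro d hd
    rw [Finsupp.sum_fintype _ _ (fun _ => rfl)] at hd
    by_cases h0 : ∃ j, d j ≠ 0
    · obtain ⟨j, hj⟩ := h0
      have h2 : d j + ∑ i ∈ Finset.univ.erase j, d i = ∑ i, d i :=
        Finset.add_sum_erase _ _ (Finset.mem_univ j)
      have h3 : ∑ i ∈ Finset.univ.erase j, d i = 0 := by omega
      have h4 : d j = 1 := by omega
      rw [Finset.sum_eq_zero_iff] at h3
      refine ⟨EuclideanSpace.single j 1, 0, fun z => ?_⟩
      rw [Finset.prod_eq_single j]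
      · rw [h4, EuclideanSpace.inner_single_left]
        simp
      · intro i _ hi
        rw [h3 i (Finset.mem_erase.2 ⟨hi, Finset.mem_univ _⟩), pow_zero]
      · intro h; exact absurd (Finset.mem_univ j) h
    · push Not at h0
      refine ⟨0, 1, fun z => ?_⟩
      simp [h0]
  have h2 : ∀ d ∈ p.support, ∃ (a : E n) (α : ℂ), ∀ z : E n,
      ∏ i, (z i) ^ (d i) = inner ℂ a z + α := fun d hd => h1 d ((le_totalDegree hd).trans hp)
  choose! a α h using h2
  refine ⟨∑ d ∈ p.support, (starRingEnd ℂ) (coeff d p) • a d,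
    ∑ d ∈ p.support, coeff d p * α d, fun z => ?_⟩
  unfold ev
  rw [eval_eq', sum_inner, ← Finset.sum_add_distrib]
  refine Finset.sum_congr rfl fun d hd => ?_
  rw [h d hd z, inner_smul_left, Complex.conj_conj]
  ring

/-- Shape of the elements of `HermPoly n 1`. -/
theorem shape1 {n : ℕ} (Q : E n → ℂ) (hQ : Q ∈ HermPoly n 1) :
    ∃ (B : E n →ₗ[ℂ] E n) (b₁ b₂ : E n) (c : ℂ), ∀ z : E n,
      Q z = inner ℂ z (B z) + inner ℂ z b₁ + inner ℂ b₂ z + c := by
  unfold HermPoly at hQ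
  induction hQ using Submodule.span_induction with
  | mem F hF =>
    obtain ⟨p, r, hp, hr, h⟩ := hF
    obtain ⟨a, α, ha⟩ := lin1 p hp
    obtain ⟨a', α', ha'⟩ := lin1 r hr
    refine ⟨((innerSL ℂ a : E n →L[ℂ] ℂ) : E n →ₗ[ℂ] ℂ).smulRight a', α • a', α' • a,
      α * (starRingEnd ℂ) α', fun z => ?_⟩
    rw [h z, ha, ha', map_add, inner_conj_symm, inner_smul_left, inner_smul_right]
    simp only [LinearMap.smulRight_apply, ContinuousLinearMap.coe_coe, innerSL_apply_apply,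
      inner_smul_right]
    ring
  | zero => exact ⟨0, 0, 0, 0, fun z => by simp⟩
  | add F K _ _ hF hK =>
    obtain ⟨B, b₁, b₂, c, h⟩ := hF
    obtain ⟨B', b₁', b₂', c', h'⟩ := hK
    refine ⟨B + B', b₁ + b₁', b₂ + b₂', c + c', fun z => ?_⟩
    simp only [Pi.add_apply, h z, h' z, LinearMap.add_apply, inner_add_left, inner_add_right]
    ring
  | smul a F _ hF =>
    obtain ⟨B, b₁, b₂, c, h⟩ := hF
    refine ⟨a • B, a • b₁, (starRingEnd ℂ) a • b₂, a * c, fun z => ?_⟩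
    simp only [Pi.smul_apply, h z, LinearMap.smul_apply, inner_smul_left, inner_smul_right,
      smul_eq_mul, Complex.conj_conj]
    ring

/-- The form of a map of degree at most two. -/
theorem shape2 (hD : DivStmt) {n N : ℕ} (hn : 1 ≤ n) (f : RatSphereMap n N)
    (hd : f.degree ≤ 2) : ∃ (B : E n →ₗ[ℂ] E n) (b : E n) (c : ℝ), B.IsSymmetric ∧
      ∀ z : E n, HH f z = (‖z‖ ^ 2 - 1) * (Jf (z, 1) (opS B b c (z, 1))).re := by
  have hdp : ∀ i, (f.p i).totalDegree ≤ 2 := fun i =>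
    ((Finset.le_sup (f := fun i => (f.p i).totalDegree) (Finset.mem_univ i)).trans
      (le_max_left _ _)).trans hd
  have hdq : f.q.totalDegree ≤ 2 := (le_max_right _ _).trans hd
  have hH : (fun z => ((HH f z : ℝ) : ℂ)) ∈ HermPoly n 2 := by
    have h1 : (fun z => ((HH f z : ℝ) : ℂ)) =
        ∑ i, (fun z => ev z (f.p i) * (starRingEnd ℂ) (ev z (f.p i))) -
          fun z => ev z f.q * (starRingEnd ℂ) (ev z f.q) := by
      ext z
      simp only [HH, Pi.sub_apply, Finset.sum_apply, Complex.mul_conj']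
      push_cast
      rfl
    rw [h1]
    refine Submodule.sub_mem _ (Submodule.sum_mem _ fun i _ => ?_) ?_
    · exact Submodule.subset_span ⟨f.p i, f.p i, hdp i, hdp i, fun z => rfl⟩
    · exact Submodule.subset_span ⟨f.q, f.q, hdq, hdq, fun z => rfl⟩
  obtain ⟨Q, hQ, hQe⟩ := hD n 2 _ hn (by norm_num) hH (fun z hz => by
    have := f.sphere z hz
    simp [HH, this])
  obtain ⟨B₀, b₁, b₂, c₀, h⟩ := shape1 Q hQ
  refine ⟨(1 / 2 : ℂ) • (B₀ + LinearMap.adjoint B₀), (1 / 2 : ℂ) • (b₁ + b₂), c₀.re, ?_, ?_⟩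
  · intro x y
    simp only [LinearMap.smul_apply, LinearMap.add_apply, inner_smul_left, inner_smul_right,
      inner_add_left, inner_add_right, LinearMap.adjoint_inner_left,
      LinearMap.adjoint_inner_right, map_div₀, map_one, map_ofNat]
    ring
  · intro z
    have h1 : (HH f z : ℝ) = (‖z‖ ^ 2 - 1) * (Q z).re := by
      have h2 := congrArg Complex.re (hQe z)
      have h3 : (((‖z‖ : ℝ) : ℂ) ^ 2 - 1) = ((‖z‖ ^ 2 - 1 : ℝ) : ℂ) := by push_cast; rfl
      rw [h3, Complex.re_ofReal_mul, Complex.ofReal_re] at h2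
      exact h2
    rw [h1, h z, opS_apply]
    congr 1
    have e1 : (inner ℂ (B₀ z) z : ℂ).re = (inner ℂ z (B₀ z) : ℂ).re := by
      rw [← inner_conj_symm, Complex.conj_re]
    have e2 : (inner ℂ b₁ z : ℂ).re = (inner ℂ z b₁ : ℂ).re := by
      rw [← inner_conj_symm, Complex.conj_re]
    have e3 : (inner ℂ b₂ z : ℂ).re = (inner ℂ z b₂ : ℂ).re := by
      rw [← inner_conj_symm, Complex.conj_re]
    simp only [Jf, LinearMap.smul_apply, LinearMap.add_apply, inner_smul_left, inner_smul_right,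
      inner_add_left, inner_add_right, LinearMap.adjoint_inner_right, map_one, one_smul, mul_one,
      one_mul, sub_neg_eq_add, Complex.add_re, Complex.ofReal_re]
    have e4 : ((1 / 2 : ℂ)) = ((1 / 2 : ℝ) : ℂ) := by push_cast; rfl
    rw [e4]
    simp only [Complex.re_ofReal_mul, Complex.conj_ofReal, Complex.add_re, e1, e2, e3]
    ring

theorem Jf_cayley {n : ℕ} (S : (E n × ℂ) →ₗ[ℂ] (E n × ℂ))
    (hS : ∀ x y, Jf (S x) y = Jf x (S y)) (t : ℝ) (w v : E n × ℂ) :
    Jf (w + ((t : ℂ) * Complex.I) • S w) (v + ((t : ℂ) * Complex.I) • S v) =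
      Jf (w - ((t : ℂ) * Complex.I) • S w) (v - ((t : ℂ) * Complex.I) • S v) := by
  have h1 : ∀ s : ℂ, (starRingEnd ℂ) s = -s →
      Jf (w + s • S w) (v + s • S v) = Jf w v - s * s * Jf (S w) (S v) := by
    intro s hs
    rw [Jf_add_left, Jf_add_right, Jf_add_right, Jf_smul_left, Jf_smul_left, Jf_smul_right,
      Jf_smul_right, hs, hS w v]
    ring
  have h2 : (starRingEnd ℂ) ((t : ℂ) * Complex.I) = -((t : ℂ) * Complex.I) := by
    rw [map_mul, Complex.conj_ofReal, Complex.conj_I]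
    ring
  rw [h1 _ h2, sub_eq_add_neg w, sub_eq_add_neg v, ← neg_smul, ← neg_smul,
    h1 (-((t : ℂ) * Complex.I)) (by rw [map_neg, h2])]
  ring

/-- Case `b ≠ 0`. -/
theorem case_b (hW : WitStmt) (hF : FracStmt) {n N : ℕ} (f : RatSphereMap n N)
    (G : Subgroup (Matrix.unitaryGroup (Fin n) ℂ)) (hG : HasSourceGroup f G)
    (hd : f.degree ≤ 2) (B : E n →ₗ[ℂ] E n) (b : E n) (c : ℝ) (hB : B.IsSymmetric)
    (hS : ∀ z : E n, HH f z = (‖z‖ ^ 2 - 1) * (Jf (z, 1) (opS B b c (z, 1))).re) : b = 0 := by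
  set S := opS B b c with hSd
  have hsym := opS_symm B b c hB
  rw [← hSd] at hsym
  -- choose `t`
  obtain ⟨t, ht0, ht⟩ : ∃ t : ℝ, t ≠ 0 ∧
      ∀ x, x - ((t : ℂ) * Complex.I) • S x = 0 → x = 0 := by
    have hfin : Set.Finite {μ : ℂ | Module.End.HasEigenvalue S μ} :=
      Module.End.finite_hasEigenvalue S
    have hinj : Function.Injective fun k : ℕ => (((k + 1 : ℝ) : ℂ) * Complex.I)⁻¹ := by
      intro k l hkl
      have h1 := mul_right_cancel₀ Complex.I_ne_zero (inv_injective hkl)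
      have h2 : (k + 1 : ℝ) = l + 1 := by exact_mod_cast h1
      have h3 : (k : ℝ) = l := by linarith
      exact_mod_cast h3
    obtain ⟨k, hk⟩ : ∃ k : ℕ, (((k + 1 : ℝ) : ℂ) * Complex.I)⁻¹ ∉
        {μ : ℂ | Module.End.HasEigenvalue S μ} := by
      by_contra hcon
      push Not at hcon
      exact Set.infinite_of_injective_forall_mem hinj hcon hfin
    have hne : (((k + 1 : ℝ) : ℂ) * Complex.I) ≠ 0 := by
      refine mul_ne_zero ?_ Complex.I_ne_zero
      have : (k + 1 : ℝ) ≠ 0 := by positivity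
      exact_mod_cast this
    refine ⟨(k + 1 : ℝ), by positivity, fun x hx => ?_⟩
    by_contra hx0
    apply hk
    refine Module.End.hasEigenvalue_of_hasEigenvector (x := x) ⟨?_, hx0⟩
    rw [Module.End.mem_eigenspace_iff]
    rw [sub_eq_zero] at hx
    conv_rhs => rw [hx]
    rw [smul_smul, inv_mul_cancel₀ hne, one_smul]
  let τ : ℂ := (t : ℂ) * Complex.I
  have hτ : τ ≠ 0 := mul_ne_zero (by exact_mod_cast ht0) Complex.I_ne_zero
  let Nm : (E n × ℂ) →ₗ[ℂ] (E n × ℂ) := LinearMap.id - τ • S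
  let Np : (E n × ℂ) →ₗ[ℂ] (E n × ℂ) := LinearMap.id + τ • S
  have hNm : ∀ x, Nm x = x - τ • S x := fun x => rfl
  have hNp : ∀ x, Np x = x + τ • S x := fun x => rfl
  have hinj : Function.Injective Nm := by
    rw [injective_iff_map_eq_zero]
    exact fun x hx => ht x hx
  let e := LinearEquiv.ofInjectiveEndo Nm hinj
  have he : ∀ x, e x = Nm x := fun x => LinearEquiv.coe_ofInjectiveEndo Nm hinj ▸ rfl
  let M : (E n × ℂ) →ₗ[ℂ] (E n × ℂ) := Np.comp (e.symm : (E n × ℂ) →ₗ[ℂ] (E n × ℂ))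
  have hMN : ∀ w, M (Nm w) = Np w := by
    intro w
    change Np (e.symm (Nm w)) = Np w
    rw [← he, LinearEquiv.symm_apply_apply]
  have hM1 : ∀ x, Jf (M x) (M x) = Jf x x := by
    intro x
    obtain ⟨w, rfl⟩ : ∃ w, Nm w = x := ⟨e.symm x, by rw [← he, LinearEquiv.apply_symm_apply]⟩
    rw [hMN, hNp, hNm]
    exact Jf_cayley S hsym t w w
  have hM2 : ∀ x, Jf (M x) (S (M x)) = Jf x (S x) := by
    intro x
    obtain ⟨w, rfl⟩ : ∃ w, Nm w = x := ⟨e.symm x, by rw [← he, LinearEquiv.apply_symm_apply]⟩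
    rw [hMN, hNp, hNm, map_add, map_sub, map_smul]
    exact Jf_cayley S hsym t w (S w)
  obtain ⟨U, -, hU⟩ := sym2 hW hF f G hG hd S hS M hM1 hM2
  have hJ : IsJ M := by
    intro x
    have h1 := hM1 x
    rw [Jf_self, Jf_self] at h1
    exact_mod_cast h1
  have h0 : (M (0, 1)).2 ≠ 0 := ((hF n M hJ).1 0 (by simp [Bn])).1
  have h1 : (M (0, 1)).1 = 0 := by
    have h2 := hU 0 (by simp [Bn])
    have h3 : act U (0 : E n) = 0 := by
      unfold act
      ext i
      simp [Matrix.mulVec, dotProduct]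
    rw [h3] at h2
    unfold frac at h2
    exact (smul_eq_zero.1 h2).resolve_left (inv_ne_zero h0)
  obtain ⟨w, hw⟩ : ∃ w, Nm w = ((0, 1) : E n × ℂ) :=
    ⟨e.symm (0, 1), by rw [← he, LinearEquiv.apply_symm_apply]⟩
  have h2 : w.1 = 0 := by
    have h3 : M (0, 1) + ((0, 1) : E n × ℂ) = (2 : ℂ) • w := by
      rw [← hw, hMN, hNp, hNm, two_smul]
      abel
    have h4 := congrArg Prod.fst h3
    rw [Prod.fst_add, h1, Prod.smul_fst] at h4
    have h5 : (2 : ℂ) • w.1 = 0 := by rw [← h4]; simp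
    exact (smul_eq_zero.1 h5).resolve_left two_ne_zero
  have h3 : w.2 • b = 0 := by
    have h4 := congrArg Prod.fst hw
    rw [hNm, Prod.fst_sub, Prod.smul_fst, hSd, opS_apply, h2] at h4
    simp only [map_zero, zero_add, zero_sub, neg_eq_zero] at h4
    exact (smul_eq_zero.1 h4).resolve_left hτ
  rcases smul_eq_zero.1 h3 with h4 | h4
  · exfalso
    have h5 : w = 0 := Prod.ext h2 h4
    rw [h5, map_zero] at hw
    have := congrArg Prod.snd hw
    simp at this
  · exact h4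

/-- Case `b = 0`. -/
theorem case_0 (hW : WitStmt) (hF : FracStmt) {n N : ℕ} (hn : 1 ≤ n) (f : RatSphereMap n N)
    (G : Subgroup (Matrix.unitaryGroup (Fin n) ℂ)) (hfin : Finite G) (hG : HasSourceGroup f G)
    (hd : f.degree ≤ 2) (B : E n →ₗ[ℂ] E n) (c : ℝ)
    (hS : ∀ z : E n, HH f z = (‖z‖ ^ 2 - 1) * (Jf (z, 1) (opS B 0 c (z, 1))).re) : False := by
  set S := opS B 0 c with hSd
  have hrot : ∀ ζ : ℂ, ‖ζ‖ = 1 → ∃ U ∈ G, ∀ z ∈ Bn n, ζ • z = act U z := by
    intro ζ hζ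
    let M : (E n × ℂ) →ₗ[ℂ] (E n × ℂ) := LinearMap.prodMap (ζ • LinearMap.id) LinearMap.id
    have hMx : ∀ x, M x = (ζ • x.1, x.2) := fun x => rfl
    have hζ2 : (starRingEnd ℂ) ζ * ζ = 1 := by
      rw [Complex.conj_mul', hζ]; simp
    have hJ : ∀ x y, Jf (M x) (M y) = Jf x y := by
      intro x y
      rw [hMx, hMx]
      simp only [Jf, inner_smul_left, inner_smul_right]
      linear_combination (inner ℂ x.1 y.1) * hζ2
    have hSM : ∀ x, S (M x) = M (S x) := by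
      intro x
      rw [hMx, hMx, hSd, opS_apply, opS_apply]
      simp
    obtain ⟨U, hU, h⟩ := sym2 hW hF f G hG hd S hS M (fun x => hJ x x)
      (fun x => by rw [hSM, hJ])
    refine ⟨U, hU, fun z hz => ?_⟩
    rw [← h z hz]
    unfold frac
    rw [hMx]
    simp
  -- infinitely many rotations
  have hnorm : ∀ k : ℕ, ‖(1 + (k : ℂ) * Complex.I) / (1 - (k : ℂ) * Complex.I)‖ = 1 := by
    intro k
    have h1 : (starRingEnd ℂ) (1 + (k : ℂ) * Complex.I) = 1 - (k : ℂ) * Complex.I := by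
      simp [sub_eq_add_neg]
    have h2 : ‖1 - (k : ℂ) * Complex.I‖ = ‖1 + (k : ℂ) * Complex.I‖ := by
      rw [← h1, RCLike.norm_conj]
    have h3 : (1 + (k : ℂ) * Complex.I) ≠ 0 := by
      intro h
      have := congrArg Complex.re h
      simp at this
    rw [norm_div, h2, div_self (norm_ne_zero_iff.2 h3)]
  have hne : ∀ k : ℕ, (1 - (k : ℂ) * Complex.I) ≠ 0 := by
    intro k h
    have := congrArg Complex.re h
    simp at this
  choose U hU hUz using fun k : ℕ => hrot _ (hnorm k)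
  have hinj : Function.Injective fun k : ℕ => (⟨U k, hU k⟩ : G) := by
    intro k l hkl
    have hkl' : U k = U l := congrArg Subtype.val hkl
    have i0 : Fin n := ⟨0, hn⟩
    have hz : (EuclideanSpace.single i0 (1 / 2 : ℂ)) ∈ Bn n := by
      simp only [Bn, Metric.mem_ball, dist_zero_right, EuclideanSpace.norm_single]
      norm_num
    have h1 := (hUz k _ hz).trans ((hkl' ▸ (hUz l _ hz).symm))
    have h2 := congrArg (fun v : E n => v i0) h1
    simp only [PiLp.smul_apply, EuclideanSpace.single_apply, if_true, smul_eq_mul] at h2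
    have h3 : (1 + (k : ℂ) * Complex.I) / (1 - (k : ℂ) * Complex.I) =
        (1 + (l : ℂ) * Complex.I) / (1 - (l : ℂ) * Complex.I) :=
      mul_right_cancel₀ (by norm_num : (1 / 2 : ℂ) ≠ 0) h2
    rw [div_eq_div_iff (hne k) (hne l)] at h3
    have h4 : ((k : ℂ) - l) * Complex.I = 0 := by linear_combination h3 / 2
    have h5 := (mul_eq_zero.1 h4).resolve_right Complex.I_ne_zero
    have h6 : (k : ℂ) = l := sub_eq_zero.1 h5
    exact_mod_cast h6
  exact not_finite_iff_infinite.2 (Infinite.of_injective _ hinj) hfin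

/-- Module DEG. -/
theorem deg (hD : DivStmt) (hW : WitStmt) (hF : FracStmt) : DegStmt := by
  intro n N f G hn hfin hG
  by_contra hlt
  have hd : f.degree ≤ 2 := by omega
  obtain ⟨B, b, c, hB, hS⟩ := shape2 hD hn f hd
  have hb := case_b hW hF f G hG hd B b c hB hS
  subst hb
  exact case_0 hW hF hn f G hfin hG hd B c hS

end Pool.Agent.H26.RSM
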