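import Pool.Agent.H24.RSM.Stmts

/-!
# Module DEG of project RSM, part 1: substitution of linear fractional maps and symmetry lemma
-/

set_option autoImplicit false

open MvPolynomial

namespace Pool.Agent.H26.RSM

open Pool.Agent.H24.RSM

/-- The affine polynomial given by a linear functional on `E n × ℂ`. -/
noncomputable def affP {n : ℕ} (φ : (E n × ℂ) →ₗ[ℂ] ℂ) : MvPolynomial (Fin n) ℂ :=
  C (φ (0, 1)) + ∑ i, C (φ (EuclideanSpace.single i 1, 0)) * X i

theorem ev_affP {n : ℕ} (φ : (E n × ℂ) →ₗ[ℂ] ℂ) (z : E n) : ev z (affP φ) = φ (z, 1) := by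
  have h1 : ((z, 1) : E n × ℂ) = (0, 1) + ∑ i, z i • ((EuclideanSpace.single i 1, 0) : E n × ℂ) := by
    ext1
    · simp only [Prod.fst_add, Prod.fst_sum, Prod.smul_fst, zero_add]
      ext j
      simp [Pi.single_apply]
    · simp only [Prod.snd_add, Prod.snd_sum, Prod.smul_snd, smul_zero, Finset.sum_const_zero,
        add_zero]
  rw [h1, map_add, map_sum]
  simp only [map_smul, smul_eq_mul]
  simp only [ev, affP, map_add, map_sum, map_mul, eval_C, eval_X]
  congr 1
  exact Finset.sum_congr rfl fun i _ => mul_comm _ _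

/-- Homogenised substitution of degree `d`. -/
noncomputable def sub {n : ℕ} (d : ℕ) (L : Fin n → MvPolynomial (Fin n) ℂ)
    (l : MvPolynomial (Fin n) ℂ) (P : MvPolynomial (Fin n) ℂ) : MvPolynomial (Fin n) ℂ :=
  ∑ α ∈ P.support, C (coeff α P) * (l ^ (d - α.sum fun _ e => e) * ∏ i, L i ^ α i)

theorem ev_sub {n d : ℕ} (L : Fin n → MvPolynomial (Fin n) ℂ) (l P : MvPolynomial (Fin n) ℂ)
    (hP : P.totalDegree ≤ d) (z w : E n)
    (hw : ∀ i, ev z (L i) = ev z l * w i) : ev z (sub d L l P) = ev z l ^ d * ev w P := by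
  unfold sub
  have h2 : ev w P = ∑ α ∈ P.support, coeff α P * ∏ i, (w i) ^ α i := by
    unfold ev
    rw [eval_eq']
  have h3 : ev z (∑ α ∈ P.support, C (coeff α P) * (l ^ (d - α.sum fun _ e => e) *
      ∏ i, L i ^ α i)) = ∑ α ∈ P.support, coeff α P * (ev z l ^ (d - α.sum fun _ e => e) *
      ∏ i, ev z (L i) ^ α i) := by
    unfold ev
    simp only [map_sum, map_mul, map_pow, map_prod, eval_C]
  rw [h2, h3, Finset.mul_sum]
  refine Finset.sum_congr rfl fun α hα => ?_
  have h4 : (α.sum fun _ e => e) ≤ d := (le_totalDegree hα).trans hP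
  have h5 : (α.sum fun _ e => e) = ∑ i, α i := Finsupp.sum_fintype _ _ (fun _ => rfl)
  have h6 : ∏ i, ev z (L i) ^ α i = ev z l ^ (α.sum fun _ e => e) * ∏ i, (w i) ^ α i := by
    rw [h5, ← Finset.prod_pow_eq_pow_sum, ← Finset.prod_mul_distrib]
    exact Finset.prod_congr rfl fun i _ => by rw [hw i, mul_pow]
  rw [h6, ← mul_assoc (ev z l ^ _), ← pow_add, Nat.sub_add_cancel h4]
  ring

/-- `‖p‖² - |q|²`. -/
noncomputable def HH {n N : ℕ} (f : RatSphereMap n N) (z : E n) : ℝ :=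
  ∑ i, ‖ev z (f.p i)‖ ^ 2 - ‖ev z f.q‖ ^ 2

theorem continuous_ev {n : ℕ} (p : MvPolynomial (Fin n) ℂ) : Continuous fun z : E n => ev z p := by
  unfold ev
  have h1 : Continuous fun z : E n => (fun i => z i : Fin n → ℂ) := by fun_prop
  exact (MvPolynomial.continuous_eval p).comp h1

theorem continuous_HH {n N : ℕ} (f : RatSphereMap n N) : Continuous (HH f) := by
  unfold HH
  have := fun i => continuous_ev (f.p i)
  have := continuous_ev f.q
  fun_prop

/-- The symmetry lemma: a linear fractional automorphism preserving the form of `f` lies in the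
source group. -/
theorem sym (hW : WitStmt) (hF : FracStmt) {n N d : ℕ} (f : RatSphereMap n N)
    (G : Subgroup (Matrix.unitaryGroup (Fin n) ℂ)) (hG : HasSourceGroup f G)
    (hd : f.degree ≤ d) (M : (E n × ℂ) →ₗ[ℂ] (E n × ℂ)) (hM : IsJ M)
    (hH : ∀ z : E n, (M (z, 1)).2 ≠ 0 →
      ‖(M (z, 1)).2‖ ^ (2 * d) * HH f (frac M z) = HH f z) :
    ∃ U ∈ G, ∀ z ∈ Bn n, frac M z = act U z := by
  classical
  obtain ⟨hF1, hF2⟩ := hF n M hM
  have hdp : ∀ i, (f.p i).totalDegree ≤ d := fun i =>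
    ((Finset.le_sup (f := fun i => (f.p i).totalDegree) (Finset.mem_univ i)).trans
      (le_max_left _ _)).trans hd
  have hdq : f.q.totalDegree ≤ d := (le_max_right _ _).trans hd
  let l : MvPolynomial (Fin n) ℂ := affP ((LinearMap.snd ℂ (E n) ℂ).comp M)
  let L : Fin n → MvPolynomial (Fin n) ℂ := fun i =>
    affP (((EuclideanSpace.proj i : E n →L[ℂ] ℂ) : E n →ₗ[ℂ] ℂ).comp ((LinearMap.fst ℂ (E n) ℂ).comp M))
  have hl : ∀ z : E n, ev z l = (M (z, 1)).2 := fun z => by
    rw [ev_affP]; rfl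
  have hL : ∀ (z : E n) i, ev z (L i) = (M (z, 1)).1 i := fun z i => by
    rw [ev_affP]; rfl
  have hw : ∀ z : E n, (M (z, 1)).2 ≠ 0 → ∀ i, ev z (L i) = ev z l * (frac M z) i := by
    intro z hz i
    rw [hL, hl]
    simp only [frac, PiLp.smul_apply, smul_eq_mul]
    field_simp
  have hsub : ∀ (P : MvPolynomial (Fin n) ℂ), P.totalDegree ≤ d → ∀ z : E n, (M (z, 1)).2 ≠ 0 →
      ev z (sub d L l P) = (M (z, 1)).2 ^ d * ev (frac M z) P := by
    intro P hP z hz
    rw [ev_sub L l P hP z (frac M z) (hw z hz), hl]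
  -- the form identity off the hyperplane
  have key1 : ∀ z : E n, (M (z, 1)).2 ≠ 0 →
      ∑ i, ‖ev z (sub d L l (f.p i))‖ ^ 2 - ‖ev z (sub d L l f.q)‖ ^ 2 = HH f z := by
    intro z hz
    rw [← hH z hz, HH, mul_sub, Finset.mul_sum]
    congr 1
    · refine Finset.sum_congr rfl fun i _ => ?_
      rw [hsub _ (hdp i) z hz, norm_mul, norm_pow, mul_pow]
      ring
    · rw [hsub _ hdq z hz, norm_mul, norm_pow, mul_pow]
      ring
  have h0 : (M (0, 1)).2 ≠ 0 := (hF1 0 (by simp [Bn])).1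
  have key2 : ∀ z : E n,
      ∑ i, ‖ev z (sub d L l (f.p i))‖ ^ 2 - ‖ev z (sub d L l f.q)‖ ^ 2 = HH f z := by
    intro z
    by_cases hz : (M (z, 1)).2 = 0
    · -- approximate along the segment to `0`
      have hc1 : Continuous fun z : E n =>
          ∑ i, ‖ev z (sub d L l (f.p i))‖ ^ 2 - ‖ev z (sub d L l f.q)‖ ^ 2 := by
        have := fun i => continuous_ev (sub d L l (f.p i))
        have := continuous_ev (sub d L l f.q)
        fun_prop
      have hcs : Continuous fun t : ℝ => ((1 - t : ℝ) : ℂ) • z := by fun_prop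
      have hT1 := ((hc1.comp hcs).tendsto 0).mono_left (nhdsWithin_le_nhds (s := {0}ᶜ))
      have hT2 := (((continuous_HH f).comp hcs).tendsto 0).mono_left
        (nhdsWithin_le_nhds (s := {0}ᶜ))
      have hev : ∀ t : ℝ, t ∈ ({0}ᶜ : Set ℝ) →
          ((fun z : E n => ∑ i, ‖ev z (sub d L l (f.p i))‖ ^ 2 -
            ‖ev z (sub d L l f.q)‖ ^ 2) ∘ fun t : ℝ => ((1 - t : ℝ) : ℂ) • z) t =
          ((HH f) ∘ fun t : ℝ => ((1 - t : ℝ) : ℂ) • z) t := by
        intro t ht
        have hz' : (M (((1 - t : ℝ) : ℂ) • z, 1)).2 = (t : ℂ) * (M (0, 1)).2 := by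
          have h7 : ((((1 - t : ℝ) : ℂ) • z, 1) : E n × ℂ) =
              ((1 - t : ℝ) : ℂ) • ((z, 1) : E n × ℂ) + (t : ℂ) • ((0, 1) : E n × ℂ) := by
            ext1
            · simp
            · simp
          rw [h7, map_add, map_smul, map_smul, Prod.snd_add, Prod.smul_snd, Prod.smul_snd, hz,
            smul_zero, zero_add, smul_eq_mul]
        have h8 : (M (((1 - t : ℝ) : ℂ) • z, 1)).2 ≠ 0 := by
          rw [hz']
          exact mul_ne_zero (by exact_mod_cast ht) h0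
        exact key1 _ h8
      have hT3 := hT1.congr' (Filter.eventually_of_mem self_mem_nhdsWithin hev)
      have := tendsto_nhds_unique hT3 hT2
      have hz1 : ((1 - (0:ℝ) : ℝ) : ℂ) • z = z := by simp
      simpa only [Function.comp, hz1] using this
    · exact key1 z hz
  obtain ⟨A, hA, hAe⟩ := hW n N (fun i => sub d L l (f.p i)) f.p (sub d L l f.q) f.q key2 (by
    have h9 := key2 0
    have h10 := f.ball 0 (by simp)
    rw [HH] at h9
    linarith)
  obtain ⟨-, hA2⟩ := hF N A hA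
  refine (hG (frac M) hF2).1 ⟨frac A, hA2, fun z hz => ?_⟩
  have hz1 := (hF1 z hz).1
  have hq : ev z f.q ≠ 0 := f.q_ne z (le_of_lt (by simpa [Bn] using hz))
  have hzM : frac M z ∈ Bn n := hF2.2.1 hz
  have hq2 : ev (frac M z) f.q ≠ 0 := f.q_ne _ (le_of_lt (by simpa [Bn] using hzM))
  have h11 : ((f.toFun z, 1) : E N × ℂ) = (ev z f.q)⁻¹ • ((vec f.p z, ev z f.q) : E N × ℂ) := by
    ext1
    · ext i
      simp only [RatSphereMap.toFun, vec, Prod.smul_fst, PiLp.smul_apply, smul_eq_mul]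
      rw [div_eq_inv_mul]
    · simp only [Prod.smul_snd, smul_eq_mul]
      rw [inv_mul_cancel₀ hq]
  have h12 : A (f.toFun z, 1) = (ev z f.q)⁻¹ •
      ((vec (fun i => sub d L l (f.p i)) z, ev z (sub d L l f.q)) : E N × ℂ) := by
    rw [h11, map_smul, hAe z]
  unfold frac at *
  rw [h12]
  simp only [Prod.smul_fst, Prod.smul_snd, smul_eq_mul, smul_smul]
  rw [mul_inv, inv_inv, mul_assoc, mul_comm (ev z (sub d L l f.q))⁻¹, ← mul_assoc,
    mul_inv_cancel₀ hq, one_mul]
  ext i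
  simp only [RatSphereMap.toFun, vec, PiLp.smul_apply, smul_eq_mul]
  rw [hsub _ (hdp i) z hz1, hsub _ hdq z hz1]
  have h13 : (M (z, 1)).2 ^ d ≠ 0 := pow_ne_zero _ hz1
  field_simp

end Pool.Agent.H26.RSM
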